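import Mathlib
import Pool.Agent.Q85.HL.G
set_option autoImplicit false
set_option linter.unusedSectionVars false

/-! The mixed norm bounds with a general outer exponent. -/

namespace Pool.Agent.Q85.HN

open MeasureTheory Set Complex
open Pool.Agent.TH277.HT Pool.Agent.Q85.HL
open scoped ENNReal NNReal

attribute [local irreducible] PP W E1

/-- the mixed norm functional -/
noncomputable def MR {H : Type} [NormedAddCommGroup H] [InnerProductSpace ℂ H] (r q : ℝ)
    (a : ℝ → H) : ℝ≥0∞ := ∫⁻ t : ℝ, (∫⁻ x : ℝ, ‖E1 a x t‖ₑ ^ q) ^ r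

/-- The restricted mixed norm bound. -/
theorem mixR (r q : ℝ) (hr : 1 < r) (hq : 2 * r + 2 < r * q) : ∃ C : ℝ≥0, ∀ (H : Type)
    [NormedAddCommGroup H] [InnerProductSpace ℂ H] [CompleteSpace H] (a : ℝ → H) (S : Set ℝ),
    AdmS a S → MR r q a ≤ C * (volume S) ^ (r * q - r - 2) := by
  have hr0 : 0 < r := by linarith
  have hq0 : 0 < q := by
    by_contra h
    have : r * q ≤ 0 := mul_nonpos_of_nonneg_of_nonpos hr0.le (not_lt.1 h)
    linarith
  set R : ℝ := r * q - 2 * (r - 1) with hR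
  have hR4 : 4 < R := by rw [hR]; linarith
  obtain ⟨C, hC⟩ := zyg' (R / 2) (by linarith)
  refine ⟨C, ?_⟩
  intro H _ _ _ a S h
  have ha := h.adm
  by_cases hz : volume S = 0
  · have h1 : ∀ x t, ‖E1 a x t‖ₑ = 0 := by
      intro x t
      have := E1_le' h x t
      rw [hz] at this
      exact le_antisymm this zero_le
    unfold MR
    simp only [h1]
    rw [ENNReal.zero_rpow_of_pos hq0, lintegral_zero,
      ENNReal.zero_rpow_of_pos hr0, lintegral_zero]
    exact zero_le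
  set m : ℝ := (volume S).toReal with hm
  have hmS : volume S = ENNReal.ofReal m := (ENNReal.ofReal_toReal h.fin).symm
  have hm0 : 0 < m := ENNReal.toReal_pos hz h.fin
  have hmx : ∀ t, Measurable fun x : ℝ => ‖E1 a x t‖ₑ := fun t => (E1x_meas ha t).enorm
  have hr1 : 0 ≤ 1 - 1 / r := by
    have : 1 / r ≤ 1 := by
      rw [div_le_one hr0]
      exact hr.le
    linarith
  have h1 : ∀ t : ℝ, (∫⁻ x : ℝ, ‖E1 a x t‖ₑ ^ q) ^ r ≤
      (volume S) ^ (r - 1) * ∫⁻ x : ℝ, ‖E1 a x t‖ₑ ^ R := by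
    intro t
    have h2 : ∀ x : ℝ, ‖E1 a x t‖ₑ ^ q =
        (‖E1 a x t‖ₑ ^ 2) ^ (1 - 1 / r) * (‖E1 a x t‖ₑ ^ R) ^ (1 / r) := by
      intro x
      rw [← ENNReal.rpow_natCast, ← ENNReal.rpow_mul, ← ENNReal.rpow_mul,
        ← ENNReal.rpow_add_of_nonneg _ _ (by positivity) (by positivity)]
      congr 1
      rw [hR]
      push_cast
      field_simp
      ring
    have h3 : ∫⁻ x : ℝ, ‖E1 a x t‖ₑ ^ q ≤
        (∫⁻ x : ℝ, ‖E1 a x t‖ₑ ^ 2) ^ (1 - 1 / r) *
          (∫⁻ x : ℝ, ‖E1 a x t‖ₑ ^ R) ^ (1 / r) := by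
      simp only [h2]
      exact ENNReal.lintegral_mul_norm_pow_le ((hmx t).pow_const 2).aemeasurable
        ((hmx t).pow_const _).aemeasurable hr1 (by positivity) (by ring)
    calc (∫⁻ x : ℝ, ‖E1 a x t‖ₑ ^ q) ^ r
        ≤ ((volume S) ^ (1 - 1 / r) *
          (∫⁻ x : ℝ, ‖E1 a x t‖ₑ ^ R) ^ (1 / r)) ^ r := by
          refine ENNReal.rpow_le_rpow (h3.trans ?_) hr0.le
          refine mul_le_mul' (ENNReal.rpow_le_rpow (E1_planch' h t) hr1) le_rfl
      _ = _ := by
          rw [ENNReal.mul_rpow_of_nonneg _ _ hr0.le, ← ENNReal.rpow_mul,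
            ← ENNReal.rpow_mul, one_div_mul_cancel hr0.ne', ENNReal.rpow_one]
          congr 2
          field_simp
  calc MR r q a ≤ ∫⁻ t : ℝ, (volume S) ^ (r - 1) * ∫⁻ x : ℝ, ‖E1 a x t‖ₑ ^ R :=
        lintegral_mono h1
    _ = (volume S) ^ (r - 1) * ∫⁻ t : ℝ, ∫⁻ x : ℝ, ‖E1 a x t‖ₑ ^ R := by
        rw [lintegral_const_mul' _ _ (ENNReal.rpow_ne_top_of_nonneg (by linarith) h.fin)]
    _ = (volume S) ^ (r - 1) * ∫⁻ p : ℝ × ℝ, ‖E1 a p.1 p.2‖ₑ ^ R := by
        rw [Measure.volume_eq_prod, lintegral_prod_symm _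
          ((E1_meas ha).enorm.pow_const _).aemeasurable]
    _ ≤ (volume S) ^ (r - 1) * (C * ENNReal.ofReal (m ^ (2 * (R / 2) - 3))) := by
        refine mul_le_mul' le_rfl ?_
        refine le_trans (le_of_eq ?_) (hC H a S m h hm0 hmS)
        apply lintegral_congr
        intro p
        rw [← ofReal_norm, ENNReal.ofReal_rpow_of_nonneg (norm_nonneg _) (by linarith)]
        congr 1
        rw [← Real.rpow_natCast, ← Real.rpow_mul (norm_nonneg _)]
        congr 1
        push_cast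
        ring
    _ = C * (volume S) ^ (r * q - r - 2) := by
        rw [hmS, ENNReal.ofReal_rpow_of_pos hm0, ENNReal.ofReal_rpow_of_pos hm0]
        rw [show r * q - r - 2 = (r - 1) + (2 * (R / 2) - 3) by rw [hR]; ring,
          Real.rpow_add hm0, ENNReal.ofReal_mul (by positivity)]
        ring

/-- The strong mixed norm bound. -/
theorem strongR (r q p : ℝ) (hr : 1 < r) (hq : 2 * r + 2 < r * q)
    (hp : r * q < p * (r * q - r - 2)) (hp1 : 1 ≤ p) : ∃ C : ℝ≥0, ∀ (H : Type)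
    [NormedAddCommGroup H] [InnerProductSpace ℂ H] [CompleteSpace H] (a : ℝ → H),
    StronglyMeasurable a → ∫⁻ u in Icc (-1 : ℝ) 1, ‖a u‖ₑ ^ p ≤ 1 → MR r q a ≤ C := by
  obtain ⟨C, hC⟩ := mixR r q hr hq
  have hr0 : 0 < r := by linarith
  have hq0 : 0 < q := by
    by_contra h
    have : r * q ≤ 0 := mul_nonpos_of_nonneg_of_nonpos hr0.le (not_lt.1 h)
    linarith
  have hq1 : 1 < q := by
    by_contra h
    have h2 : r * q ≤ r * 1 := mul_le_mul_of_nonneg_left (not_lt.1 h) hr0.le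
    linarith
  have hrq : 1 < r * q := by linarith
  set κ : ℝ := p * (r * q - r - 2) - r * q with hκ
  have hκ0 : 0 < κ := by rw [hκ]; linarith
  set η : ℝ := κ / (2 * (r * q - 1)) with hη
  have hη0 : 0 < η := by
    have : 0 < r * q - 1 := by linarith
    positivity
  set K : ℝ := (2 * 2 ^ p) ^ (r * q - r - 2) with hK
  have hK0 : 0 < K := by positivity
  set Wt : ℝ≥0∞ := ∑' j, wt η j with hWt
  have hWtt : Wt ≠ ⊤ := wt_sum hη0
  set B : ℝ≥0∞ := Wt ^ ((q - 1) * r) * (Wt ^ (r - 1) *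
    ∑' j : ℕ, C * ENNReal.ofReal K * wt (κ / 2) j) with hB
  have hBt : B ≠ ⊤ := by
    rw [hB, ENNReal.tsum_mul_left]
    have h1 : (0 : ℝ) ≤ (q - 1) * r := mul_nonneg (by linarith) hr0.le
    exact ENNReal.mul_ne_top (ENNReal.rpow_ne_top_of_nonneg h1 hWtt)
      (ENNReal.mul_ne_top (ENNReal.rpow_ne_top_of_nonneg (by linarith) hWtt)
        (ENNReal.mul_ne_top (ENNReal.mul_ne_top ENNReal.coe_ne_top ENNReal.ofReal_ne_top)
          (wt_sum (by linarith))))
  refine ⟨B.toNNReal, ?_⟩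
  intro H _ _ _ a ha hA
  rw [ENNReal.coe_toNNReal hBt]
  have hL1 := L1_of_Lp hp1 hA
  set c : ℕ → ℝ≥0∞ := wt η with hc
  have hm : ∀ (j : ℕ) (t : ℝ), Measurable fun x : ℝ => ‖E1 (pc a j) x t‖ₑ :=
    fun j t => (E1x_meas (pc_adm ha j).adm t).enorm
  set I : ℕ → ℝ → ℝ≥0∞ := fun j t => ∫⁻ x : ℝ, ‖E1 (pc a j) x t‖ₑ ^ q with hI
  have hIm : ∀ j, Measurable (I j) := by
    intro j
    have h1 : Measurable fun r : ℝ × ℝ => ‖E1 (pc a j) r.2 r.1‖ₑ ^ q :=
      ((E1_meas (pc_adm ha j).adm).enorm.comp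
        (by fun_prop : Measurable fun r : ℝ × ℝ => ((r.2, r.1) : ℝ × ℝ))).pow_const q
    exact h1.lintegral_prod_right'
  set d : ℕ → ℝ≥0∞ := fun j => c j ^ (1 - q) * ENNReal.ofReal (2 ^ j) ^ q with hd
  -- step 1 and 2
  have s2 : ∀ t, ∫⁻ x : ℝ, ‖E1 a x t‖ₑ ^ q ≤ Wt ^ (q - 1) * ∑' j, d j * I j t := by
    intro t
    calc ∫⁻ x : ℝ, ‖E1 a x t‖ₑ ^ q
        ≤ ∫⁻ x : ℝ, Wt ^ (q - 1) * ∑' j, d j * ‖E1 (pc a j) x t‖ₑ ^ q := by
          apply lintegral_mono
          intro x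
          simp only
          calc ‖E1 a x t‖ₑ ^ q ≤ (∑' j, ENNReal.ofReal (2 ^ j) * ‖E1 (pc a j) x t‖ₑ) ^ q :=
                ENNReal.rpow_le_rpow (E1_tsum_le ha hL1 x t) (by linarith)
            _ ≤ Wt ^ (q - 1) * ∑' j, c j ^ (1 - q) *
                (ENNReal.ofReal (2 ^ j) * ‖E1 (pc a j) x t‖ₑ) ^ q :=
                jensen c _ q hq1 (wt_ne η) (wt_top η)
            _ = _ := by
                congr 1
                apply tsum_congr
                intro j
                rw [hd]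
                simp only
                rw [ENNReal.mul_rpow_of_nonneg _ _ (by linarith : (0 : ℝ) ≤ q), mul_assoc]
      _ = Wt ^ (q - 1) * ∑' j, d j * I j t := by
          rw [lintegral_const_mul' _ _ (ENNReal.rpow_ne_top_of_nonneg (by linarith) hWtt),
            lintegral_tsum (fun j => (((hm j t).pow_const q).const_mul _).aemeasurable)]
          congr 1
          apply tsum_congr
          intro j
          rw [lintegral_const_mul _ ((hm j t).pow_const q)]
  -- step 3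
  have s3 : ∀ t, (∫⁻ x : ℝ, ‖E1 a x t‖ₑ ^ q) ^ r ≤ Wt ^ ((q - 1) * r) *
      (Wt ^ (r - 1) * ∑' j, c j ^ (1 - r) * (d j ^ r * I j t ^ r)) := by
    intro t
    calc (∫⁻ x : ℝ, ‖E1 a x t‖ₑ ^ q) ^ r
        ≤ (Wt ^ (q - 1) * ∑' j, d j * I j t) ^ r :=
          ENNReal.rpow_le_rpow (s2 t) hr0.le
      _ = Wt ^ ((q - 1) * r) * (∑' j, d j * I j t) ^ r := by
          rw [ENNReal.mul_rpow_of_nonneg _ _ hr0.le, ← ENNReal.rpow_mul]
      _ ≤ Wt ^ ((q - 1) * r) *
          (Wt ^ (r - 1) * ∑' j, c j ^ (1 - r) * (d j * I j t) ^ r) :=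
          mul_le_mul' le_rfl (jensen c _ r hr (wt_ne η) (wt_top η))
      _ = _ := by
          congr 2
          apply tsum_congr
          intro j
          rw [ENNReal.mul_rpow_of_nonneg _ _ hr0.le]
  -- the coefficients
  have hcoef : ∀ j : ℕ, c j ^ (1 - r) * d j ^ r * (C * volume (lv a j) ^ (r * q - r - 2)) ≤
      C * ENNReal.ofReal K * wt (κ / 2) j := by
    intro j
    have e1 : volume (lv a j) ^ (r * q - r - 2) ≤
        ENNReal.ofReal (K * (2 : ℝ) ^ (-(p * (r * q - r - 2)) * j)) := by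
      calc volume (lv a j) ^ (r * q - r - 2)
          ≤ ENNReal.ofReal (2 * 2 ^ p * (2 : ℝ) ^ (-(p * j))) ^ (r * q - r - 2) :=
            ENNReal.rpow_le_rpow (lv_vol ha p (by linarith) hA j) (by linarith)
        _ = _ := by
            rw [ENNReal.ofReal_rpow_of_pos (by positivity)]
            congr 1
            rw [Real.mul_rpow (by positivity) (by positivity), ← hK,
              ← Real.rpow_mul (by norm_num)]
            congr 2
            ring
    have e2 : c j ^ (1 - r) * d j ^ r =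
        ENNReal.ofReal ((2 : ℝ) ^ ((η * (r * q - 1) + r * q) * j)) := by
      rw [hd, hc]
      simp only
      rw [ENNReal.mul_rpow_of_nonneg _ _ hr0.le, ← ENNReal.rpow_mul,
        ← ENNReal.rpow_mul, ← mul_assoc, ← ENNReal.rpow_add _ _ (wt_ne η j) (wt_top η j),
        wt_rpow, ENNReal.ofReal_rpow_of_pos (by positivity), ← ENNReal.ofReal_mul (by positivity),
        ← Real.rpow_natCast, ← Real.rpow_mul (by norm_num), ← Real.rpow_add (by norm_num)]
      congr 2
      ring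
    rw [e2]
    calc ENNReal.ofReal ((2 : ℝ) ^ ((η * (r * q - 1) + r * q) * j)) *
          (C * volume (lv a j) ^ (r * q - r - 2))
        ≤ ENNReal.ofReal ((2 : ℝ) ^ ((η * (r * q - 1) + r * q) * j)) *
          (C * ENNReal.ofReal (K * (2 : ℝ) ^ (-(p * (r * q - r - 2)) * j))) := by gcongr
      _ = C * (ENNReal.ofReal ((2 : ℝ) ^ ((η * (r * q - 1) + r * q) * j)) *
          ENNReal.ofReal (K * (2 : ℝ) ^ (-(p * (r * q - r - 2)) * j))) := by ring
      _ = C * (ENNReal.ofReal K * wt (κ / 2) j) := by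
          congr 1
          unfold wt
          rw [← ENNReal.ofReal_mul (by positivity), ← ENNReal.ofReal_mul hK0.le, mul_left_comm,
            ← Real.rpow_add (by norm_num)]
          congr 3
          have h2 : r * q - 1 ≠ 0 := by
            have : 0 < r * q - 1 := by linarith
            exact this.ne'
          have h3 : η * (r * q - 1) = κ / 2 := by
            rw [hη]
            field_simp
          rw [h3, hκ]
          ring
      _ = _ := by ring
  calc MR r q a ≤ ∫⁻ t : ℝ, Wt ^ ((q - 1) * r) *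
        (Wt ^ (r - 1) * ∑' j, c j ^ (1 - r) * (d j ^ r * I j t ^ r)) :=
        lintegral_mono s3
    _ = Wt ^ ((q - 1) * r) * (Wt ^ (r - 1) *
        ∑' j, c j ^ (1 - r) * d j ^ r * MR r q (pc a j)) := by
        rw [lintegral_const_mul' _ _ (ENNReal.rpow_ne_top_of_nonneg
            (mul_nonneg (by linarith) hr0.le) hWtt),
          lintegral_const_mul' _ _ (ENNReal.rpow_ne_top_of_nonneg (by linarith) hWtt),
          lintegral_tsum (fun j => ((((hIm j).pow_const r).const_mul _).const_mul _).aemeasurable)]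
        congr 2
        apply tsum_congr
        intro j
        rw [lintegral_const_mul _ (((hIm j).pow_const r).const_mul _),
          lintegral_const_mul _ ((hIm j).pow_const r), ← mul_assoc]
        rfl
    _ ≤ B := by
        rw [hB]
        refine mul_le_mul' le_rfl (mul_le_mul' le_rfl (ENNReal.tsum_le_tsum fun j => ?_))
        refine le_trans ?_ (hcoef j)
        exact mul_le_mul' le_rfl (hC H (pc a j) (lv a j) (pc_adm ha j))

section

variable {H : Type} [NormedAddCommGroup H] [InnerProductSpace ℂ H] [CompleteSpace H]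

lemma MR_smul (r q : ℝ) (hr : 0 < r) (hq : 0 < q) (c : ℂ) (a : ℝ → H) :
    MR r q (fun u => c • a u) = ‖c‖ₑ ^ (q * r) * MR r q a := by
  unfold MR
  have h1 : ∀ t : ℝ, (∫⁻ x : ℝ, ‖E1 (fun u => c • a u) x t‖ₑ ^ q) ^ r =
      ‖c‖ₑ ^ (q * r) * (∫⁻ x : ℝ, ‖E1 a x t‖ₑ ^ q) ^ r := by
    intro t
    have h2 : ∀ x : ℝ, ‖E1 (fun u => c • a u) x t‖ₑ ^ q = ‖c‖ₑ ^ q * ‖E1 a x t‖ₑ ^ q := by
      intro x
      rw [E1_smul, enorm_smul, ENNReal.mul_rpow_of_nonneg _ _ hq.le]
    simp only [h2]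
    rw [lintegral_const_mul' _ _ (ENNReal.rpow_ne_top_of_nonneg hq.le enorm_ne_top),
      ENNReal.mul_rpow_of_nonneg _ _ hr.le, ← ENNReal.rpow_mul]
  simp only [h1]
  rw [lintegral_const_mul' _ _ (ENNReal.rpow_ne_top_of_nonneg (by positivity) enorm_ne_top)]

end

/-- The strong mixed norm bound, homogeneous form. -/
theorem strongR' (r q p : ℝ) (hr : 1 < r) (hq : 2 * r + 2 < r * q)
    (hp : r * q < p * (r * q - r - 2)) (hp1 : 1 ≤ p) : ∃ C : ℝ≥0, ∀ (H : Type)
    [NormedAddCommGroup H] [InnerProductSpace ℂ H] [CompleteSpace H] (a : ℝ → H),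
    StronglyMeasurable a → ∫⁻ u in Icc (-1 : ℝ) 1, ‖a u‖ₑ ^ p ≠ ⊤ →
    MR r q a ≤ C * (∫⁻ u in Icc (-1 : ℝ) 1, ‖a u‖ₑ ^ p) ^ (q * r / p) := by
  obtain ⟨C, hC⟩ := strongR r q p hr hq hp hp1
  have hr0 : 0 < r := by linarith
  have hq0 : 0 < q := by
    by_contra h
    have : r * q ≤ 0 := mul_nonpos_of_nonneg_of_nonpos hr0.le (not_lt.1 h)
    linarith
  have hp0 : 0 < p := by linarith
  refine ⟨C, ?_⟩
  intro H _ _ _ a ha hA
  set A : ℝ≥0∞ := ∫⁻ u in Icc (-1 : ℝ) 1, ‖a u‖ₑ ^ p with hAdef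
  by_cases hz : A = 0
  · have h1 : ∀ x t, E1 a x t = 0 := by
      intro x t
      unfold E1
      apply integral_eq_zero_of_ae
      have h2 := (lintegral_eq_zero_iff (ha.enorm.pow_const p)).1 (hAdef.symm.trans hz)
      filter_upwards [h2] with u hu
      have h3 : ‖a u‖ₑ = 0 := by
        have h4 : ‖a u‖ₑ ^ p = 0 := hu
        rcases (ENNReal.rpow_eq_zero_iff.1 h4) with h | h
        · exact h.1
        · exact absurd h.1 enorm_ne_top
      rw [enorm_eq_zero.1 h3, smul_zero]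
      rfl
    have h2 : MR r q a = 0 := by
      unfold MR
      simp only [h1, enorm_zero]
      rw [ENNReal.zero_rpow_of_pos hq0, lintegral_zero,
        ENNReal.zero_rpow_of_pos hr0, lintegral_zero]
    rw [h2]
    exact zero_le
  · set ρ : ℝ := A.toReal with hρ
    have hρ0 : 0 < ρ := ENNReal.toReal_pos hz hA
    have hAr : A = ENNReal.ofReal ρ := (ENNReal.ofReal_toReal hA).symm
    set c : ℂ := ((ρ ^ (-(1 / p)) : ℝ) : ℂ) with hc
    have hcn : ‖c‖ₑ = ENNReal.ofReal (ρ ^ (-(1 / p))) := by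
      rw [← ofReal_norm, hc, Complex.norm_real, Real.norm_of_nonneg (by positivity)]
    have h1 : ∫⁻ u in Icc (-1 : ℝ) 1, ‖c • a u‖ₑ ^ p = 1 := by
      have h2 : ∀ u, ‖c • a u‖ₑ ^ p = ‖c‖ₑ ^ p * ‖a u‖ₑ ^ p := by
        intro u
        rw [enorm_smul, ENNReal.mul_rpow_of_nonneg _ _ hp0.le]
      simp only [h2]
      rw [lintegral_const_mul' _ _ (ENNReal.rpow_ne_top_of_nonneg hp0.le enorm_ne_top), ← hAdef,
        hcn, hAr, ENNReal.ofReal_rpow_of_pos (by positivity), ← ENNReal.ofReal_mul (by positivity),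
        ← Real.rpow_mul hρ0.le]
      rw [show -(1 / p) * p = -1 by field_simp, Real.rpow_neg_one, inv_mul_cancel₀ hρ0.ne',
        ENNReal.ofReal_one]
    have h3 := hC H (fun u => c • a u) (ha.const_smul c) h1.le
    rw [MR_smul r q hr0 hq0] at h3
    have h4 : MR r q a = ENNReal.ofReal (ρ ^ (q * r / p)) * (‖c‖ₑ ^ (q * r) * MR r q a) := by
      rw [← mul_assoc, hcn, ENNReal.ofReal_rpow_of_pos (by positivity),
        ← ENNReal.ofReal_mul (by positivity), ← Real.rpow_mul hρ0.le, ← Real.rpow_add hρ0]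
      rw [show q * r / p + -(1 / p) * (q * r) = 0 by ring, Real.rpow_zero, ENNReal.ofReal_one,
        one_mul]
    rw [h4, hAr, ENNReal.ofReal_rpow_of_pos hρ0, mul_comm (C : ℝ≥0∞)]
    exact mul_le_mul' le_rfl h3

end Pool.Agent.Q85.HN
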