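import Mathlib
import Pool.Agent.TH277.HT.D
import Pool.Agent.Q85.HN.A
set_option autoImplicit false
set_option linter.unusedSectionVars false

/-! The extension operator in `n` variables, rotations and sums. -/

namespace Pool.Agent.Q85.HN

open MeasureTheory Set Complex Matrix
open Pool.Agent.TH277.HT Pool.Agent.Q85.HL
open scoped ENNReal NNReal

attribute [local irreducible] PP W

/-- the phase -/
noncomputable def pn {n : ℕ} (ξ : Fin n → ℝ) (y : (Fin n → ℝ) × ℝ) : ℝ :=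
  ∑ j, ξ j * y.1 j + (∑ j, ξ j ^ 2) * y.2

/-- the extension operator of the paraboloid in `ℝ^(n+1)` -/
noncomputable def EN {n : ℕ} (f : (Fin n → ℝ) → ℂ) (y : (Fin n → ℝ) × ℝ) : ℂ :=
  ∫ ξ : Fin n → ℝ, ch (pn ξ y) * f ξ

lemma pn_cont1 {n : ℕ} (ξ : Fin n → ℝ) : Continuous fun y : (Fin n → ℝ) × ℝ => pn ξ y := by
  unfold pn
  fun_prop

lemma pn_cont2 {n : ℕ} (y : (Fin n → ℝ) × ℝ) : Continuous fun ξ : Fin n → ℝ => pn ξ y := by
  unfold pn
  fun_prop

lemma EN_cont {n : ℕ} {f : (Fin n → ℝ) → ℂ} (hf : Integrable f) : Continuous (EN f) := by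
  unfold EN
  apply continuous_of_dominated (bound := fun u => ‖f u‖)
  · intro y
    exact ((ch_cont.comp (pn_cont2 y)).aestronglyMeasurable).mul hf.aestronglyMeasurable
  · intro y
    refine ae_of_all _ fun x => ?_
    rw [norm_mul, ch_norm, one_mul]
  · exact hf.norm
  · refine ae_of_all _ fun x => ?_
    exact (ch_cont.comp (pn_cont1 x)).mul continuous_const

section

variable {H : Type} [NormedAddCommGroup H] [InnerProductSpace ℂ H] [CompleteSpace H]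

/-- The extension operator on multilinear forms. -/
lemma EN_mult {n : ℕ} (M : ContinuousMultilinearMap ℂ (fun _ : Fin n => H) ℂ)
    (a : Fin n → ℝ → H) (ha : ∀ j, StronglyMeasurable (a j)) (hi : ∀ j, Integrable (a j))
    (h0 : ∀ j u, u ∉ Icc (-1 : ℝ) 1 → a j u = 0) (y : (Fin n → ℝ) × ℝ) :
    EN (fun ξ => M (fun j => a j (ξ j))) y = M (fun j => E1 (a j) (y.1 j) y.2) := by
  have h1 : ∀ j, E1 (a j) (y.1 j) y.2 = ∫ u, ch (u * y.1 j + u ^ 2 * y.2) • a j u :=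
    fun j => E1_full (h0 j) _ _
  have hm : ∀ j, StronglyMeasurable fun u : ℝ => ch (u * y.1 j + u ^ 2 * y.2) • a j u := by
    intro j
    apply StronglyMeasurable.smul
    · have h2 : Continuous fun u : ℝ => ch (u * y.1 j + u ^ 2 * y.2) := ch_cont.comp (by fun_prop)
      exact h2.stronglyMeasurable
    · exact ha j
  have hi2 : ∀ j, Integrable fun u : ℝ => ch (u * y.1 j + u ^ 2 * y.2) • a j u := by
    intro j
    refine Integrable.mono (hi j) (hm j).aestronglyMeasurable ?_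
    refine ae_of_all _ fun u => ?_
    rw [norm_smul, ch_norm, one_mul]
  simp only [h1]
  rw [← mult_int M _ hm hi2]
  unfold EN
  apply integral_congr_ae
  refine ae_of_all _ fun ξ => ?_
  simp only
  rw [ContinuousMultilinearMap.map_smul_univ, smul_eq_mul]
  congr 1
  unfold pn
  rw [Finset.sum_mul, ← Finset.sum_add_distrib, ch_sum]

end

attribute [local irreducible] E1

/-- The product bound. -/
theorem prodR {H : Type} [NormedAddCommGroup H] [InnerProductSpace ℂ H] [CompleteSpace H] {n : ℕ}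
    (q : ℝ) (hq : 0 < q) (θ : Fin n → ℝ) (hθ : ∀ j, 0 < θ j) (hθ1 : ∑ j, θ j = 1)
    (a : Fin n → ℝ → H) (ha : ∀ j, IntegrableOn (a j) (Icc (-1 : ℝ) 1)) :
    ∫⁻ y : (Fin n → ℝ) × ℝ, (∏ j, ‖E1 (a j) (y.1 j) y.2‖ₑ) ^ q ≤
      ∏ j, (MR (1 / θ j) q (a j)) ^ (θ j) := by
  have ma : ∀ j, Measurable fun r : ℝ × ℝ => ‖E1 (a j) r.1 r.2‖ₑ ^ q := fun j =>
    (E1_cont (ha j)).enorm.measurable.pow_const q
  set I : Fin n → ℝ → ℝ≥0∞ := fun j t => ∫⁻ x : ℝ, ‖E1 (a j) x t‖ₑ ^ q with hI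
  have hIm : ∀ j, Measurable (I j) := fun j =>
    ((ma j).comp (by fun_prop : Measurable fun r : ℝ × ℝ => ((r.2, r.1) : ℝ × ℝ))).lintegral_prod_right'
  have hmm : Measurable fun y : (Fin n → ℝ) × ℝ => (∏ j, ‖E1 (a j) (y.1 j) y.2‖ₑ) ^ q := by
    apply Measurable.pow_const
    apply Finset.measurable_prod
    intro j _
    exact (E1_cont (ha j)).enorm.measurable.comp
      (by fun_prop : Measurable fun y : (Fin n → ℝ) × ℝ => ((y.1 j, y.2) : ℝ × ℝ))
  calc ∫⁻ y : (Fin n → ℝ) × ℝ, (∏ j, ‖E1 (a j) (y.1 j) y.2‖ₑ) ^ q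
      = ∫⁻ t : ℝ, ∫⁻ x : Fin n → ℝ, (∏ j, ‖E1 (a j) (x j) t‖ₑ) ^ q := by
        rw [Measure.volume_eq_prod, lintegral_prod_symm _ hmm.aemeasurable]
    _ = ∫⁻ t : ℝ, ∏ j, I j t := by
        apply lintegral_congr
        intro t
        rw [hI]
        simp only
        rw [← lint_pi (fun j x => ‖E1 (a j) x t‖ₑ ^ q) (fun j => (ma j).comp
          (by fun_prop : Measurable fun x : ℝ => ((x, t) : ℝ × ℝ)))]
        apply lintegral_congr
        intro x
        rw [← ENNReal.prod_rpow_of_nonneg hq.le]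
    _ = ∫⁻ t : ℝ, ∏ j, ((I j t) ^ (1 / θ j)) ^ (θ j) := by
        apply lintegral_congr
        intro t
        apply Finset.prod_congr rfl
        intro j _
        rw [← ENNReal.rpow_mul, one_div_mul_cancel (hθ j).ne', ENNReal.rpow_one]
    _ ≤ ∏ j, (∫⁻ t : ℝ, (I j t) ^ (1 / θ j)) ^ (θ j) :=
        ENNReal.lintegral_prod_norm_pow_le Finset.univ
          (fun j _ => ((hIm j).pow_const _).aemeasurable) hθ1 (fun j _ => (hθ j).le)
    _ = _ := rfl

/-- orthogonal matrices preserve the Lebesgue measure -/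
lemma om_mp {n : ℕ} {O : Matrix (Fin n) (Fin n) ℝ} (h : Oᵀ * O = 1) :
    MeasurePreserving (fun ξ : Fin n → ℝ => O *ᵥ ξ) := by
  have hdet : O.det * O.det = 1 := by
    have h1 := congrArg Matrix.det h
    rwa [Matrix.det_mul, Matrix.det_transpose, Matrix.det_one] at h1
  have h0 : O.det ≠ 0 := by
    intro h2
    rw [h2] at hdet
    norm_num at hdet
  have habs : |O.det⁻¹| = 1 := by
    rw [abs_inv]
    have h3 : |O.det| * |O.det| = 1 := by rw [← abs_mul, hdet, abs_one]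
    have h4 : |O.det| = 1 := by nlinarith [abs_nonneg O.det]
    rw [h4, inv_one]
  have h2 := Real.map_matrix_volume_pi_eq_smul_volume_pi h0
  rw [habs, ENNReal.ofReal_one, one_smul] at h2
  refine ⟨?_, ?_⟩
  · have : Continuous fun ξ : Fin n → ℝ => O *ᵥ ξ := Continuous.matrix_mulVec continuous_const continuous_id
    exact this.measurable
  · exact h2

lemma om_inj {n : ℕ} {O : Matrix (Fin n) (Fin n) ℝ} (h : Oᵀ * O = 1) :
    Function.Injective (fun ξ : Fin n → ℝ => O *ᵥ ξ) := by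
  intro x y hxy
  have h1 : Oᵀ *ᵥ (O *ᵥ x) = Oᵀ *ᵥ (O *ᵥ y) := congrArg (fun z => Oᵀ *ᵥ z) hxy
  rwa [Matrix.mulVec_mulVec, Matrix.mulVec_mulVec, h, Matrix.one_mulVec, Matrix.one_mulVec] at h1

lemma om_emb {n : ℕ} {O : Matrix (Fin n) (Fin n) ℝ} (h : Oᵀ * O = 1) :
    MeasurableEmbedding (fun ξ : Fin n → ℝ => O *ᵥ ξ) :=
  (om_mp h).measurable.measurableEmbedding (om_inj h)

lemma dot_om {n : ℕ} {O : Matrix (Fin n) (Fin n) ℝ} (h : Oᵀ * O = 1) (x y : Fin n → ℝ) :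
    (O *ᵥ x) ⬝ᵥ (O *ᵥ y) = x ⬝ᵥ y := by
  rw [Matrix.dotProduct_mulVec, Matrix.vecMul_mulVec, h, Matrix.vecMul_one]

lemma pn_eq {n : ℕ} (ξ : Fin n → ℝ) (y : (Fin n → ℝ) × ℝ) :
    pn ξ y = ξ ⬝ᵥ y.1 + (ξ ⬝ᵥ ξ) * y.2 := by
  unfold pn dotProduct
  congr 2
  apply Finset.sum_congr rfl
  intro j _
  rw [sq]

lemma pn_om {n : ℕ} {O : Matrix (Fin n) (Fin n) ℝ} (h : Oᵀ * O = 1) (ξ : Fin n → ℝ)
    (y : (Fin n → ℝ) × ℝ) : pn (O *ᵥ ξ) (O *ᵥ y.1, y.2) = pn ξ y := by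
  rw [pn_eq, pn_eq, dot_om h, dot_om h]

lemma EN_om {n : ℕ} {O : Matrix (Fin n) (Fin n) ℝ} (h : Oᵀ * O = 1) (g : (Fin n → ℝ) → ℂ)
    (y : (Fin n → ℝ) × ℝ) : EN (fun ξ => g (O *ᵥ ξ)) y = EN g (O *ᵥ y.1, y.2) := by
  unfold EN
  rw [← (om_mp h).integral_comp (om_emb h) (fun ξ => ch (pn ξ (O *ᵥ y.1, y.2)) * g ξ)]
  simp only [pn_om h]

lemma EN_om_lint {n : ℕ} {O : Matrix (Fin n) (Fin n) ℝ} (h : Oᵀ * O = 1) {g : (Fin n → ℝ) → ℂ}
    (hg : Integrable g) (q : ℝ) :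
    ∫⁻ y, ‖EN (fun ξ => g (O *ᵥ ξ)) y‖ₑ ^ q = ∫⁻ y, ‖EN g y‖ₑ ^ q := by
  simp only [EN_om h]
  have h1 : MeasurePreserving (Prod.map (fun ξ : Fin n → ℝ => O *ᵥ ξ) (id : ℝ → ℝ))
      ((volume : Measure (Fin n → ℝ)).prod volume) ((volume : Measure (Fin n → ℝ)).prod volume) :=
    (om_mp h).prod (MeasurePreserving.id _)
  rw [Measure.volume_eq_prod]
  exact h1.lintegral_comp ((EN_cont hg).enorm.measurable.pow_const q)

/-- sums of kernels, general form -/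
theorem sum_gen {X Y : Type*} [MeasurableSpace X] [MeasurableSpace Y] (μ : Measure X)
    (ν : Measure Y) (κ : X → Y → ℂ) (hκ : ∀ x y, ‖κ x y‖ = 1)
    (hκm : ∀ y, AEStronglyMeasurable (fun x => κ x y) μ)
    (q : ℝ) (hq : 1 < q) (C D : ℝ≥0∞) (hD : D ≠ ⊤) (w : ℕ → ℝ≥0∞) (g : ℕ → X → ℂ)
    (hg : ∀ k, Integrable (g k) μ) (hL1 : ∀ k, ∫⁻ x, ‖g k x‖ₑ ∂μ ≤ D * w k)
    (hm : ∀ k, Measurable fun y => ‖∫ x, κ x y * g k x ∂μ‖ₑ)
    (hE : ∀ k, ∫⁻ y, ‖∫ x, κ x y * g k x ∂μ‖ₑ ^ q ∂ν ≤ C * w k ^ q) (hw : ∑' k, w k ≠ ⊤)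
    (f : X → ℂ) (hf : ∀ᵐ x ∂μ, f x = ∑' k, g k x) :
    ∫⁻ y, ‖∫ x, κ x y * f x ∂μ‖ₑ ^ q ∂ν ≤ C * (∑' k, w k) ^ q := by
  have hwt : ∀ k, w k ≠ ⊤ := fun k => ENNReal.ne_top_of_tsum_ne_top hw k
  have h1 : ∀ y, ‖∫ x, κ x y * f x ∂μ‖ₑ ≤ ∑' k, ‖∫ x, κ x y * g k x ∂μ‖ₑ := by
    intro y
    have e1 : ∫ x, κ x y * f x ∂μ = ∑' k, ∫ x, κ x y * g k x ∂μ := by
      rw [← integral_tsum]
      · apply integral_congr_ae
        filter_upwards [hf] with x hx
        rw [hx, tsum_mul_left]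
      · intro k
        exact (hκm y).mul (hg k).aestronglyMeasurable
      · have e2 : ∑' k, D * w k ≠ ⊤ := by
          rw [ENNReal.tsum_mul_left]
          exact ENNReal.mul_ne_top hD hw
        refine ne_top_of_le_ne_top e2 (ENNReal.tsum_le_tsum fun k => ?_)
        refine le_trans (le_of_eq ?_) (hL1 k)
        apply lintegral_congr
        intro x
        rw [enorm_mul, ← ofReal_norm (κ x y), hκ, ENNReal.ofReal_one, one_mul]
    rw [e1]
    exact enorm_tsum_le_tsum_enorm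
  have h0 : ∀ k, w k = 0 → ∀ y, ‖∫ x, κ x y * g k x ∂μ‖ₑ = 0 := by
    intro k hk y
    have e1 : ∫⁻ x, ‖g k x‖ₑ ∂μ = 0 := by
      refine le_antisymm ((hL1 k).trans ?_) zero_le
      rw [hk, mul_zero]
    rw [lintegral_eq_zero_iff' (hg k).aestronglyMeasurable.enorm] at e1
    have e2 : ∫ x, κ x y * g k x ∂μ = 0 := by
      apply integral_eq_zero_of_ae
      filter_upwards [e1] with x hx
      have e3 : g k x = 0 := enorm_eq_zero.1 hx
      rw [e3, mul_zero]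
      rfl
    rw [e2, enorm_zero]
  set Wt : ℝ≥0∞ := ∑' k, w k with hWt
  calc ∫⁻ y, ‖∫ x, κ x y * f x ∂μ‖ₑ ^ q ∂ν
      ≤ ∫⁻ y, Wt ^ (q - 1) * ∑' k, w k ^ (1 - q) * ‖∫ x, κ x y * g k x ∂μ‖ₑ ^ q ∂ν := by
        apply lintegral_mono
        intro y
        simp only
        exact (ENNReal.rpow_le_rpow (h1 y) (by linarith)).trans
          (jensen0 w _ q hq (fun k hk => h0 k hk y) hwt)
    _ = Wt ^ (q - 1) * ∑' k, w k ^ (1 - q) * ∫⁻ y, ‖∫ x, κ x y * g k x ∂μ‖ₑ ^ q ∂ν := by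
        have hm' : ∀ k, Measurable fun y => ‖∫ x, κ x y * g k x ∂μ‖ₑ ^ q := fun k =>
          (hm k).pow_const q
        rw [lintegral_const_mul' _ _ (ENNReal.rpow_ne_top_of_nonneg (by linarith) hw),
          lintegral_tsum (fun k => ((hm' k).const_mul _).aemeasurable)]
        congr 1
        apply tsum_congr
        intro k
        rw [lintegral_const_mul _ (hm' k)]
    _ ≤ Wt ^ (q - 1) * ∑' k, C * w k := by
        refine mul_le_mul' le_rfl (ENNReal.tsum_le_tsum fun k => ?_)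
        by_cases hk : w k = 0
        · have e1 : ∫⁻ y, ‖∫ x, κ x y * g k x ∂μ‖ₑ ^ q ∂ν = 0 := by
            simp only [h0 k hk]
            rw [ENNReal.zero_rpow_of_pos (by linarith), lintegral_zero]
          rw [e1, mul_zero]
          exact zero_le
        · calc w k ^ (1 - q) * ∫⁻ y, ‖∫ x, κ x y * g k x ∂μ‖ₑ ^ q ∂ν
              ≤ w k ^ (1 - q) * (C * w k ^ q) := by
                gcongr
                exact hE k
            _ = C * (w k ^ (1 - q) * w k ^ q) := by ring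
            _ = C * w k := by
                rw [← ENNReal.rpow_add _ _ hk (hwt k), sub_add_cancel, ENNReal.rpow_one]
    _ = C * Wt ^ q := by
        rw [ENNReal.tsum_mul_left, ← hWt]
        rw [show C * Wt ^ q = Wt ^ (q - 1) * (C * Wt) from ?_]
        by_cases hz : Wt = 0
        · rw [hz, mul_zero, mul_zero, ENNReal.zero_rpow_of_pos (by linarith), mul_zero]
        · calc C * Wt ^ q = C * (Wt ^ (q - 1) * Wt ^ (1 : ℝ)) := by
                rw [← ENNReal.rpow_add _ _ hz hw, sub_add_cancel]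
            _ = _ := by
                rw [ENNReal.rpow_one]
                ring

end Pool.Agent.Q85.HN
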