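import Mathlib
import Pool.Agent.Q85.HN.B
set_option autoImplicit false
set_option linter.unusedSectionVars false

/-! The main estimate in `n` variables. -/

namespace Pool.Agent.Q85.HN

open MeasureTheory Set Complex Matrix
open Pool.Agent.TH277.HT Pool.Agent.Q85.HL
open scoped ENNReal NNReal

attribute [local irreducible] PP W E1

/-- the interval `[-1, 1]` -/
def I1 : Set ℝ := Icc (-1) 1

/-- the `L^p` norm on `[-1, 1]` -/
noncomputable def N1 {H : Type} [NormedAddCommGroup H] (p : ℝ) (a : ℝ → H) : ℝ≥0∞ :=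
  eLpNorm a (ENNReal.ofReal p) (volume.restrict I1)

/-- the kernel on the cube -/
noncomputable def kc {H : Type} [NormedAddCommGroup H] [InnerProductSpace ℂ H] {n : ℕ}
    (M : ContinuousMultilinearMap ℂ (fun _ : Fin n => H) ℂ) (a : Fin n → ℝ → H)
    (ξ : Fin n → ℝ) : ℂ := (Icc (-1 : Fin n → ℝ) 1).indicator (fun z => M fun j => a j (z j)) ξ

lemma I1_meas : MeasurableSet I1 := measurableSet_Icc

lemma I1_vol : volume I1 = 2 := by
  unfold I1
  rw [Real.volume_Icc]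
  norm_num

lemma N1_pow {H : Type} [NormedAddCommGroup H] {p : ℝ} (hp : 0 < p) (a : ℝ → H) :
    ∫⁻ u in Icc (-1 : ℝ) 1, ‖I1.indicator a u‖ₑ ^ p = N1 p a ^ p := by
  unfold N1
  have h0 : ENNReal.ofReal p ≠ 0 := by simpa using hp
  have h1 : ENNReal.ofReal p ≠ ⊤ := ENNReal.ofReal_ne_top
  rw [eLpNorm_eq_lintegral_rpow_enorm_toReal h0 h1, ENNReal.toReal_ofReal hp.le,
    ← ENNReal.rpow_mul, one_div_mul_cancel hp.ne', ENNReal.rpow_one]
  apply setLIntegral_congr_fun measurableSet_Icc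
  intro u hu
  simp only
  rw [indicator_of_mem (show u ∈ I1 from hu)]

/-- comparison of the norms -/
lemma N1_mono {H : Type} [NormedAddCommGroup H] {p r : ℝ} (hr : 1 ≤ r) (hrp : r ≤ p) {a : ℝ → H}
    (ha : StronglyMeasurable a) : N1 r a ≤ 2 * N1 p a := by
  unfold N1
  have h1 := eLpNorm_le_eLpNorm_mul_rpow_measure_univ (μ := volume.restrict I1)
    (ENNReal.ofReal_le_ofReal hrp) ha.aestronglyMeasurable
  rw [Measure.restrict_apply_univ, I1_vol] at h1
  refine h1.trans ?_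
  rw [mul_comm]
  refine mul_le_mul' ?_ le_rfl
  rw [ENNReal.toReal_ofReal (by linarith), ENNReal.toReal_ofReal (by linarith)]
  calc (2 : ℝ≥0∞) ^ (1 / r - 1 / p) ≤ 2 ^ (1 : ℝ) := by
        apply ENNReal.rpow_le_rpow_of_exponent_le (by norm_num)
        have h2 : 1 / r ≤ 1 := by
          rw [div_le_one (by linarith)]
          exact hr
        have h3 : 0 ≤ 1 / p := by
          have : 0 < p := by linarith
          positivity
        linarith
    _ = 2 := ENNReal.rpow_one 2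

lemma N1_one {H : Type} [NormedAddCommGroup H] {p : ℝ} (hp : 1 ≤ p) {a : ℝ → H}
    (ha : StronglyMeasurable a) : ∫⁻ u, ‖I1.indicator a u‖ₑ ≤ 2 * N1 p a := by
  have h1 : ∫⁻ u, ‖I1.indicator a u‖ₑ = N1 1 a := by
    unfold N1
    rw [ENNReal.ofReal_one, eLpNorm_one_eq_lintegral_enorm, ← lintegral_indicator I1_meas]
    apply lintegral_congr
    intro u
    by_cases hu : u ∈ I1
    · rw [indicator_of_mem hu, indicator_of_mem hu]
    · rw [indicator_of_notMem hu, indicator_of_notMem hu, enorm_zero]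
  rw [h1]
  exact N1_mono le_rfl hp ha

lemma ind_int1 {H : Type} [NormedAddCommGroup H] {p : ℝ} (hp : 1 ≤ p) {a : ℝ → H}
    (ha : StronglyMeasurable a) (hN : N1 p a ≠ ⊤) : Integrable (I1.indicator a) := by
  refine ⟨(ha.indicator I1_meas).aestronglyMeasurable, ?_⟩
  exact lt_of_le_of_lt (N1_one hp ha) (lt_top_iff_ne_top.2 (ENNReal.mul_ne_top (by norm_num) hN))

lemma kc_eq {H : Type} [NormedAddCommGroup H] [InnerProductSpace ℂ H] {n : ℕ}
    (M : ContinuousMultilinearMap ℂ (fun _ : Fin n => H) ℂ) (a : Fin n → ℝ → H) :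
    kc M a = fun ξ => M fun j => I1.indicator (a j) (ξ j) := by
  ext ξ
  unfold kc
  by_cases h : ξ ∈ Icc (-1 : Fin n → ℝ) 1
  · rw [indicator_of_mem h]
    congr 1
    ext j
    rw [indicator_of_mem (show ξ j ∈ I1 from ⟨h.1 j, h.2 j⟩)]
  · rw [indicator_of_notMem h]
    have h2 : ∃ j, ξ j ∉ I1 := by
      by_contra hc
      push Not at hc
      exact h ⟨fun j => (hc j).1, fun j => (hc j).2⟩
    obtain ⟨j, hj⟩ := h2
    exact (M.map_coord_zero j (indicator_of_notMem hj _)).symm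

/-- choice of the outer exponents -/
lemma choose_th {n : ℕ} (hn : 2 ≤ n) (q : ℝ) (hq : 0 < q) (P : Fin n → ℝ)
    (h1 : ∀ j, P j < 1 - 1 / q) (h2 : ∑ j, P j < n - (n + 2) / q) :
    ∃ θ : Fin n → ℝ, (∀ j, 0 < θ j) ∧ (∀ j, θ j < 1) ∧ ∑ j, θ j = 1 ∧
      ∀ j, θ j < (q * (1 - P j) - 1) / 2 := by
  set τ : Fin n → ℝ := fun j => (q * (1 - P j) - 1) / 2 with hτ
  have hτ0 : ∀ j, 0 < τ j := by
    intro j
    have e1 := h1 j
    have e2 : q * P j < q * (1 - 1 / q) := mul_lt_mul_of_pos_left e1 hq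
    have e3 : q * (1 - 1 / q) = q - 1 := by field_simp
    rw [hτ]
    simp only
    have e4 : q * (1 - P j) - 1 = q - q * P j - 1 := by ring
    rw [e4]
    linarith
  set T : ℝ := ∑ j, τ j with hT
  have hT1 : 1 < T := by
    have e1 : T = (q * (n - ∑ j, P j) - n) / 2 := by
      rw [hT, hτ]
      simp only
      rw [← Finset.sum_div, Finset.sum_sub_distrib, ← Finset.mul_sum, Finset.sum_sub_distrib]
      simp
    rw [e1]
    have e2 : q * ∑ j, P j < q * (n - (n + 2) / q) := mul_lt_mul_of_pos_left h2 hq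
    have e3 : q * (n - (n + 2) / q) = q * n - (n + 2) := by field_simp
    rw [e3] at e2
    have e4 : q * (n - ∑ j, P j) = q * n - q * ∑ j, P j := by ring
    rw [e4]
    linarith
  have hT0 : 0 < T := by linarith
  refine ⟨fun j => τ j / T, fun j => div_pos (hτ0 j) hT0, ?_, ?_, ?_⟩
  · intro j
    rw [div_lt_one hT0, hT]
    have : ∃ i : Fin n, i ≠ j := by
      have : Nontrivial (Fin n) := Fin.nontrivial_iff_two_le.2 hn
      exact exists_ne j
    obtain ⟨i, hi⟩ := this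
    exact Finset.single_lt_sum hi (Finset.mem_univ _) (Finset.mem_univ _) (hτ0 i)
      (fun k _ _ => (hτ0 k).le)
  · rw [← Finset.sum_div, ← hT, div_self hT0.ne']
  · intro j
    exact div_lt_self (hτ0 j) hT1

/-- The main estimate for exponents at most `q`. -/
theorem main0 (n : ℕ) (hn : 2 ≤ n) (q : ℝ) (hq : 1 < q) (p : Fin n → ℝ) (hp1 : ∀ j, 1 ≤ p j)
    (hpq : ∀ j, p j ≤ q) (h1 : ∀ j, 1 / p j < 1 - 1 / q)
    (h2 : ∑ j, 1 / p j < n - (n + 2) / q) : ∃ C : ℝ≥0, ∀ (H : Type)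
    [NormedAddCommGroup H] [InnerProductSpace ℂ H] [CompleteSpace H]
    (M : ℕ → ContinuousMultilinearMap ℂ (fun _ : Fin n => H) ℂ) (a : ℕ → Fin n → ℝ → H)
    (O : ℕ → Matrix (Fin n) (Fin n) ℝ) (f : (Fin n → ℝ) → ℂ),
    (∀ k x, ‖M k x‖ ≤ ∏ j, ‖x j‖) → (∀ k, (O k)ᵀ * O k = 1) →
    (∀ k j, StronglyMeasurable (a k j)) → (∀ k j, N1 (p j) (a k j) ≠ ⊤) →
    (∀ᵐ ξ, f ξ = ∑' k, kc (M k) (a k) (O k *ᵥ ξ)) →
    eLpNorm (EN f) (ENNReal.ofReal q) volume ≤ C * ∑' k, ∏ j, N1 (p j) (a k j) := by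
  have hq0 : 0 < q := by linarith
  obtain ⟨θ, hθ0, hθ1, hθs, hθ⟩ := choose_th hn q hq0 (fun j => 1 / p j) h1 h2
  have hp0 : ∀ j, 0 < p j := fun j => by linarith [hp1 j]
  have hst : ∀ j, ∃ C : ℝ≥0, ∀ (H : Type)
      [NormedAddCommGroup H] [InnerProductSpace ℂ H] [CompleteSpace H] (a : ℝ → H),
      StronglyMeasurable a → ∫⁻ u in Icc (-1 : ℝ) 1, ‖a u‖ₑ ^ (p j) ≠ ⊤ →
      MR (1 / θ j) q a ≤ C * (∫⁻ u in Icc (-1 : ℝ) 1, ‖a u‖ₑ ^ (p j)) ^ (q * (1 / θ j) / p j) := by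
    intro j
    have e0 := hθ0 j
    have e1 : θ j < (q * (1 - 1 / p j) - 1) / 2 := hθ j
    have e2 : q * (1 / p j) = q / p j := by ring
    have e3 : 1 ≤ q / p j := by
      rw [le_div_iff₀ (hp0 j)]
      linarith [hpq j]
    have e4 : θ j < (q - q / p j - 1) / 2 := by
      have : q * (1 - 1 / p j) - 1 = q - q / p j - 1 := by ring
      rwa [this] at e1
    apply strongR'
    · rw [lt_div_iff₀ e0]
      linarith [hθ1 j]
    · have e5 : 2 * (1 / θ j) + 2 = (2 + 2 * θ j) / θ j := by field_simp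
      have e6 : 1 / θ j * q = q / θ j := by ring
      rw [e5, e6]
      apply div_lt_div_of_pos_right _ e0
      linarith
    · have e5 : 1 / θ j * q = q / θ j := by ring
      have e6 : p j * (1 / θ j * q - 1 / θ j - 2) = (p j * (q - 1 - 2 * θ j)) / θ j := by
        field_simp
      rw [e6, e5]
      apply div_lt_div_of_pos_right _ e0
      have e7 : q / p j < q - 1 - 2 * θ j := by linarith
      rw [div_lt_iff₀ (hp0 j)] at e7
      linarith
    · exact hp1 j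
  choose C hC using hst
  set K : ℝ≥0∞ := ∏ j, (C j : ℝ≥0∞) ^ (θ j) with hK
  have hKt : K ≠ ⊤ := ENNReal.prod_ne_top fun j _ =>
    ENNReal.rpow_ne_top_of_nonneg (hθ0 j).le ENNReal.coe_ne_top
  have hK2 : K ^ (1 / q) ≠ ⊤ := ENNReal.rpow_ne_top_of_nonneg (by positivity) hKt
  refine ⟨(K ^ (1 / q)).toNNReal + 1, ?_⟩
  intro H _ _ _ M a O f hM hO ha hN hf
  set w : ℕ → ℝ≥0∞ := fun k => ∏ j, N1 (p j) (a k j) with hw
  by_cases hwt : ∑' k, w k = ⊤
  · rw [hwt, ENNReal.mul_top]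
    · exact le_top
    · have h1 : (1 : ℝ≥0∞) ≤ (((K ^ (1 / q)).toNNReal + 1 : ℝ≥0) : ℝ≥0∞) := by
        push_cast
        exact le_add_self
      exact (lt_of_lt_of_le zero_lt_one h1).ne'
  have h0 : ENNReal.ofReal q ≠ 0 := by simpa using hq0
  have h1' : ENNReal.ofReal q ≠ ⊤ := ENNReal.ofReal_ne_top
  set g : ℕ → (Fin n → ℝ) → ℂ := fun k ξ => kc (M k) (a k) (O k *ᵥ ξ) with hg
  have ia : ∀ k j, Integrable (I1.indicator (a k j)) := fun k j =>
    ind_int1 (hp1 j) (ha k j) (hN k j)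
  have sa : ∀ k j, StronglyMeasurable (I1.indicator (a k j)) := fun k j =>
    (ha k j).indicator I1_meas
  have kle : ∀ k ξ, ‖kc (M k) (a k) ξ‖ₑ ≤ ∏ j, ‖I1.indicator (a k j) (ξ j)‖ₑ := by
    intro k ξ
    rw [kc_eq]
    simp only
    have e1 := hM k fun j => I1.indicator (a k j) (ξ j)
    rw [← ofReal_norm]
    refine (ENNReal.ofReal_le_ofReal e1).trans (le_of_eq ?_)
    rw [ENNReal.ofReal_prod_of_nonneg (fun j _ => norm_nonneg _)]
    simp only [ofReal_norm]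
  have hkL : ∀ k, ∫⁻ ξ, ‖kc (M k) (a k) ξ‖ₑ ≤ 2 ^ n * w k := by
    intro k
    calc ∫⁻ ξ, ‖kc (M k) (a k) ξ‖ₑ
        ≤ ∫⁻ ξ : Fin n → ℝ, ∏ j, ‖I1.indicator (a k j) (ξ j)‖ₑ := lintegral_mono (kle k)
      _ = ∏ j, ∫⁻ u, ‖I1.indicator (a k j) u‖ₑ :=
          lint_pi (fun j u => ‖I1.indicator (a k j) u‖ₑ) fun j => (sa k j).enorm
      _ ≤ ∏ j, 2 * N1 (p j) (a k j) :=
          Finset.prod_le_prod' fun j _ => N1_one (hp1 j) (ha k j)
      _ = 2 ^ n * w k := by
          rw [Finset.prod_mul_distrib, Finset.prod_const, Finset.card_univ, Fintype.card_fin]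
  have hkm : ∀ k, StronglyMeasurable (kc (M k) (a k)) := by
    intro k
    rw [kc_eq]
    apply (M k).cont.comp_stronglyMeasurable
    exact tuple_meas (fun (j : Fin n) (ξ : Fin n → ℝ) => I1.indicator (a k j) (ξ j)) fun j =>
      (sa k j).comp_measurable (measurable_pi_apply j)
  have hkn : ∀ k, Integrable (kc (M k) (a k)) := by
    intro k
    refine ⟨(hkm k).aestronglyMeasurable, ?_⟩
    refine lt_of_le_of_lt (hkL k) (lt_top_iff_ne_top.2 (ENNReal.mul_ne_top (by simp) ?_))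
    exact ENNReal.prod_ne_top fun j _ => hN k j
  have hgi : ∀ k, Integrable (g k) := fun k =>
    ((om_mp (hO k)).integrable_comp_emb (om_emb (hO k))).2 (hkn k)
  have hgL : ∀ k, ∫⁻ x, ‖g k x‖ₑ ≤ 2 ^ n * w k := by
    intro k
    refine le_trans (le_of_eq ?_) (hkL k)
    exact (om_mp (hO k)).lintegral_comp_emb (om_emb (hO k)) (fun x => ‖kc (M k) (a k) x‖ₑ)
  have z0 : ∀ (v : ℝ → H) (u : ℝ), u ∉ Icc (-1 : ℝ) 1 → I1.indicator v u = 0 := fun v u hu =>
    indicator_of_notMem hu _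
  have hMX : ∀ k j, (MR (1 / θ j) q (I1.indicator (a k j))) ^ (θ j) ≤
      (C j : ℝ≥0∞) ^ (θ j) * N1 (p j) (a k j) ^ q := by
    intro k j
    have e1 := N1_pow (hp0 j) (a k j)
    have e2 := hC j H (I1.indicator (a k j)) (sa k j) (by
      rw [e1]
      exact ENNReal.rpow_ne_top_of_nonneg (hp0 j).le (hN k j))
    rw [e1, ← ENNReal.rpow_mul] at e2
    calc (MR (1 / θ j) q (I1.indicator (a k j))) ^ (θ j)
        ≤ (C j * N1 (p j) (a k j) ^ (p j * (q * (1 / θ j) / p j))) ^ (θ j) :=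
          ENNReal.rpow_le_rpow e2 (hθ0 j).le
      _ = _ := by
          rw [ENNReal.mul_rpow_of_nonneg _ _ (hθ0 j).le, ← ENNReal.rpow_mul]
          congr 2
          have e3 := (hθ0 j).ne'
          have e4 := (hp0 j).ne'
          field_simp
  have hgE : ∀ k, ∫⁻ y, ‖EN (g k) y‖ₑ ^ q ≤ K * w k ^ q := by
    intro k
    calc ∫⁻ y, ‖EN (g k) y‖ₑ ^ q = ∫⁻ y, ‖EN (kc (M k) (a k)) y‖ₑ ^ q :=
          EN_om_lint (hO k) (hkn k) q
      _ ≤ ∫⁻ y : (Fin n → ℝ) × ℝ, (∏ j, ‖E1 (I1.indicator (a k j)) (y.1 j) y.2‖ₑ) ^ q := by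
          apply lintegral_mono
          intro y
          simp only
          refine ENNReal.rpow_le_rpow ?_ hq0.le
          rw [kc_eq, EN_mult (M k) (fun j => I1.indicator (a k j)) (sa k) (ia k) (fun j => z0 _)]
          have e1 := hM k fun j => E1 (I1.indicator (a k j)) (y.1 j) y.2
          rw [← ofReal_norm]
          refine (ENNReal.ofReal_le_ofReal e1).trans (le_of_eq ?_)
          rw [ENNReal.ofReal_prod_of_nonneg (fun j _ => norm_nonneg _)]
          simp only [ofReal_norm]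
      _ ≤ ∏ j, (MR (1 / θ j) q (I1.indicator (a k j))) ^ (θ j) :=
          prodR q hq0 θ hθ0 hθs _ fun j => (ia k j).integrableOn
      _ ≤ ∏ j, ((C j : ℝ≥0∞) ^ (θ j) * N1 (p j) (a k j) ^ q) :=
          Finset.prod_le_prod' fun j _ => hMX k j
      _ = K * w k ^ q := by
          rw [Finset.prod_mul_distrib, hw]
          simp only
          rw [ENNReal.prod_rpow_of_nonneg hq0.le]
  have hfin := sum_gen volume volume (fun (ξ : Fin n → ℝ) (y : (Fin n → ℝ) × ℝ) => ch (pn ξ y))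
    (fun ξ y => ch_norm _) (fun y => (ch_cont.comp (pn_cont2 y)).aestronglyMeasurable) q hq
    K (2 ^ n) (by simp) w g hgi hgL (fun k => (EN_cont (hgi k)).enorm.measurable) hgE hwt f hf
  rw [eLpNorm_eq_lintegral_rpow_enorm_toReal h0 h1', ENNReal.toReal_ofReal hq0.le]
  calc (∫⁻ y, ‖EN f y‖ₑ ^ q) ^ (1 / q) ≤ (K * (∑' k, w k) ^ q) ^ (1 / q) :=
        ENNReal.rpow_le_rpow hfin (by positivity)
    _ = K ^ (1 / q) * ∑' k, w k := by
        rw [ENNReal.mul_rpow_of_nonneg _ _ (by positivity), ← ENNReal.rpow_mul,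
          mul_one_div_cancel hq0.ne', ENNReal.rpow_one]
    _ ≤ _ := by
        gcongr
        push_cast
        rw [ENNReal.coe_toNNReal hK2]
        exact le_self_add

/-- The main estimate. -/
theorem main (n : ℕ) (hn : 2 ≤ n) (q : ℝ) (hq : 1 < q) (p : Fin n → ℝ) (hp1 : ∀ j, 1 ≤ p j)
    (h1 : ∀ j, 1 / p j < 1 - 1 / q)
    (h2 : ∑ j, max (1 / p j) (1 / q) < n - (n + 2) / q) : ∃ C : ℝ≥0, ∀ (H : Type)
    [NormedAddCommGroup H] [InnerProductSpace ℂ H] [CompleteSpace H]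
    (M : ℕ → ContinuousMultilinearMap ℂ (fun _ : Fin n => H) ℂ) (a : ℕ → Fin n → ℝ → H)
    (O : ℕ → Matrix (Fin n) (Fin n) ℝ) (f : (Fin n → ℝ) → ℂ),
    (∀ k x, ‖M k x‖ ≤ ∏ j, ‖x j‖) → (∀ k, (O k)ᵀ * O k = 1) →
    (∀ k j, StronglyMeasurable (a k j)) → (∀ k j, N1 (p j) (a k j) ≠ ⊤) →
    (∀ᵐ ξ, f ξ = ∑' k, kc (M k) (a k) (O k *ᵥ ξ)) →
    eLpNorm (EN f) (ENNReal.ofReal q) volume ≤ C * ∑' k, ∏ j, N1 (p j) (a k j) := by
  have hq0 : 0 < q := by linarith
  have hp0 : ∀ j, 0 < p j := fun j => by linarith [hp1 j]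
  set p' : Fin n → ℝ := fun j => min (p j) q with hp'
  have hp'1 : ∀ j, 1 ≤ p' j := fun j => le_min (hp1 j) hq.le
  have hinv : ∀ j, 1 / p' j = max (1 / p j) (1 / q) := by
    intro j
    rw [hp']
    simp only
    rcases le_total (p j) q with h | h
    · rw [min_eq_left h, max_eq_left (one_div_le_one_div_of_le (hp0 j) h)]
    · rw [min_eq_right h, max_eq_right (one_div_le_one_div_of_le hq0 h)]
  have hq2 : 1 / q < 1 - 1 / q := by
    have e1 : ∑ j : Fin n, 1 / q ≤ ∑ j, max (1 / p j) (1 / q) :=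
      Finset.sum_le_sum fun j _ => le_max_right _ _
    rw [Finset.sum_const, Finset.card_univ, Fintype.card_fin, nsmul_eq_mul] at e1
    have e2 : (n : ℝ) * (1 / q) < n - (n + 2) / q := lt_of_le_of_lt e1 h2
    have e3 : (n : ℝ) - (n + 2) / q = n * (1 - 1 / q) - 2 / q := by ring
    rw [e3] at e2
    have e4 : 0 < 2 / q := by positivity
    have e5 : (n : ℝ) * (1 / q) < n * (1 - 1 / q) := by linarith
    have hn0 : (0 : ℝ) < n := by
      have : (2 : ℝ) ≤ n := by exact_mod_cast hn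
      linarith
    exact lt_of_mul_lt_mul_left e5 hn0.le
  obtain ⟨C, hC⟩ := main0 n hn q hq p' hp'1 (fun j => min_le_right _ _)
    (fun j => by
      rw [hinv j]
      exact max_lt (h1 j) hq2)
    (by
      simp only [hinv]
      exact h2)
  refine ⟨C * 2 ^ n, ?_⟩
  intro H _ _ _ M a O f hM hO ha hN hf
  have hle : ∀ k j, N1 (p' j) (a k j) ≤ 2 * N1 (p j) (a k j) := fun k j =>
    N1_mono (hp'1 j) (min_le_left _ _) (ha k j)
  refine (hC H M a O f hM hO ha (fun k j => ?_) hf).trans ?_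
  · exact ne_top_of_le_ne_top (ENNReal.mul_ne_top (by norm_num) (hN k j)) (hle k j)
  · calc (C : ℝ≥0∞) * ∑' k, ∏ j, N1 (p' j) (a k j)
        ≤ C * ∑' k, 2 ^ n * ∏ j, N1 (p j) (a k j) := by
          refine mul_le_mul' le_rfl (ENNReal.tsum_le_tsum fun k => ?_)
          calc ∏ j, N1 (p' j) (a k j) ≤ ∏ j, 2 * N1 (p j) (a k j) :=
                Finset.prod_le_prod' fun j _ => hle k j
            _ = 2 ^ n * ∏ j, N1 (p j) (a k j) := by
                rw [Finset.prod_mul_distrib, Finset.prod_const, Finset.card_univ, Fintype.card_fin]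
      _ = _ := by
          rw [ENNReal.tsum_mul_left, ← mul_assoc]
          push_cast
          rfl

end Pool.Agent.Q85.HN
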